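import Pool.Agent.H63.FDN.Conv

/-!
# The Kakeya problem for families of tubes with few directions in every ball
-/

set_option autoImplicit false

namespace Pool.Agent.Results.MP_850839_an.FewDirections

open FDN

theorem result (E : Type) [NormedAddCommGroup E] [InnerProductSpace ℝ E] [FiniteDimensional ℝ E]
    [MeasurableSpace E] [BorelSpace E] (d : ℕ) (hE : Module.finrank ℝ E = d + 1) (hd : 3 ≤ d) :
    (∀ A σ ε q₀ : ℝ, 0 ≤ σ → σ ≤ 1 - 3 / (d : ℝ) → 0 < ε → ε < 1 - σ →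
      1 + 1 / ((d : ℝ) * (1 - σ)) < q₀ →
      ∃ θ P C : ℝ, 0 < θ ∧ 0 ≤ P ∧ 0 < C ∧ ∀ δ : ℝ, 0 < δ → δ < 1 →
        ∀ (N : ℕ) (c e : Fin N → E), Dirs δ e →
        (σ = 1 - 3 / (d : ℝ) ∨ Spread δ (A * (N : ℝ) ^ σ) e) →
        Off d θ (σ + ε) q₀ C δ c e ∧ Union d (1 - σ - ε) C δ c e ∧
        Dense d P (1 - σ - ε) C δ c e) ∧
    (∀ Ω K : Set E, Ω.Nonempty → (∀ e ∈ Ω, ‖e‖ = 1 ∧ HasSegment K e) →
      min (dimH Ω) 3 + 1 ≤ dimH K) ∧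
    (∀ K : Set E, IsKakeya K →
      4 ≤ dimH K ∧ (d = 3 → dimH K = 4) ∧ (d = 5 → ENNReal.ofReal (32 / 7) ≤ dimH K) ∧
        (d = 6 → 5 ≤ dimH K) ∧ (d = 7 → ENNReal.ofReal (60 / 11) ≤ dimH K)) ∧
    (d = 4 → ∃ c : ℝ, 0 < c ∧ ∀ K : Set E, IsKakeya K → ENNReal.ofReal (4 + c) ≤ dimH K) :=
  fewDirections E d hE hd

end Pool.Agent.Results.MP_850839_an.FewDirections
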