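import Pool.Agent.H63.FDS.Conv

/-!
# The Kakeya inequality for families of tubes with few directions in every ball
-/

set_option autoImplicit false

open MeasureTheory FDS

namespace Pool.Agent.Results.MP_850839_an.FewDirectionsExact

/-- Let `n = d + 1 ≥ 3`, `A > 0`, and `σ = 0` or `0 ≤ σ < 1 - 2 / (n - 1)`. For each exponent
`1 + 1 / ((n - 1) (1 - σ)) < q ≤ ∞` there is a constant `C` such that the inequality of Q1 holds
for all `0 < δ < 1` and every finite family of `δ`-tubes of the Euclidean space `E` of dimension `n`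
with `δ`-separated orientations, of which at most `A N ^ σ (r / δ) ^ 2` are in a ball of radius
`r ≥ δ` around one of them; for `n = 3` this last condition is not needed. For `q = ∞` the exponents
of `δ` and `N` are `0` and `1`. -/
theorem result (E : Type) [NormedAddCommGroup E] [InnerProductSpace ℝ E] [FiniteDimensional ℝ E]
    [MeasurableSpace E] [BorelSpace E] (d : ℕ) (hE : Module.finrank ℝ E = d + 1) (hd : 2 ≤ d)
    (σ A : ℝ) (hσ : 0 ≤ σ) (hσ1 : σ = 0 ∨ σ < 1 - 2 / (d : ℝ))
    (q : ENNReal) (hq : ENNReal.ofReal (1 + 1 / ((d : ℝ) * (1 - σ))) < q) :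
    ∃ C : ℝ, ∀ δ : ℝ, 0 < δ → δ < 1 →
      ∀ (N : ℕ) (c e : Fin N → E),
        (∀ i, ‖e i‖ = 1) → (∀ i j, i ≠ j → δ ≤ ‖e i - e j‖) →
        (d = 2 ∨ Spread δ (A * (N : ℝ) ^ σ) e) →
        eLpNorm (fun x => ∑ i, (tube δ (c i) (e i)).indicator (fun _ => (1 : ℝ)) x) q volume ≤
        ENNReal.ofReal (C * (δ ^ ((d : ℝ) / q.toReal) *
          (N : ℝ) ^ (1 - 1 / (q.toReal * d)))) :=
  fewDirectionsExact d hd σ A hσ hσ1 q hq E hE

end Pool.Agent.Results.MP_850839_an.FewDirectionsExact
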