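import Pool.Agent.H63.HDS.Conv

/-!
# The Kakeya maximal inequality of Q1 in every dimension, a range of exponents

(1) Let `α = 1.67513...` be the root of `α ^ 3 = 4 * α - 2` above `1`. Let `n = d + 1 ≥ 3` and
`q > 1 + 2 / n`, or `n = 6` and `q > 41 / 31`, or `n ≥ 7` and
`q > 1 + α / (n - 1 + 0.279 + 0.05 / (n - 1))`. Then the inequality of Q1 holds, with no loss in `δ`
and with the exact power of the number of tubes.
(2) Let `n = 5`, `q ≥ 11 / 8` and `ε > 0`. Then the norm is at most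
`C δ ^ (5 / q - 4 - ε) * (δ ^ 4 * N) ^ (1 / q)`: for `N` comparable with `δ ^ (-4)` (the largest
number of directions), the inequality of Q1 with a loss `δ ^ (-ε)`.
-/

set_option autoImplicit false

namespace Pool.Agent.Results.MP_850839_an.HighDimension

open HDS

theorem result (E : Type) [NormedAddCommGroup E] [InnerProductSpace ℝ E] [FiniteDimensional ℝ E]
    [MeasurableSpace E] [BorelSpace E] (d : ℕ) (hE : Module.finrank ℝ E = d + 1) :
    (∀ α : ℝ, 1 < α → α ^ 3 = 4 * α - 2 → ∀ q : ℝ,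
      (2 ≤ d ∧ 1 + 2 / (d + 1) < q ∨ d = 5 ∧ 41 / 31 < q ∨
        6 ≤ d ∧ 1 + α / (d + 0.279 + 0.05 / d) < q) →
      Bound E q (d / q) (1 - 1 / (q * d))) ∧
    (d = 4 → ∀ q : ℝ, 11 / 8 ≤ q → ∀ ε : ℝ, 0 < ε → Bound E q (9 / q - 4 - ε) (1 / q)) :=
  highDimension E d hE

end Pool.Agent.Results.MP_850839_an.HighDimension
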