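import Pool.Agent.H90.STE.AllS

/-!
# Sticky Kakeya in every dimension: families of tubes with shadings, and sets

The statement only uses the definitions of this file.
-/

set_option autoImplicit false

open MeasureTheory
open scoped RealInnerProductSpace ENNReal

namespace Pool.Agent.Results.MP_850839_an.StickyKakeya

section

variable {E : Type} [NormedAddCommGroup E] [InnerProductSpace ℝ E]

/-- The tube of length `1`, radius `δ`, centre `c` and axis direction `e`. -/
def tube (δ : ℝ) (c e : E) : Set E :=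
  {x | |⟪x - c, e⟫| ≤ 1 / 2 ∧ ‖(x - c) - ⟪x - c, e⟫ • e‖ ≤ δ}

/-- The infinite cylinder of radius `r` about the line through `c` with direction `e`. -/
def cyl (r : ℝ) (c e : E) : Set E :=
  {x | ‖(x - c) - ⟪x - c, e⟫ • e‖ ≤ r}

/-- The covering number of the family at the scale `ρ` is at most `A`: for every point `x` and every
unit vector `v`, the tubes of the family whose centre is at distance at most `1` from `x` and whose
direction is at distance at most `ρ` from `v` are covered by at most `A` cylinders of radius `L * ρ`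
(each of these tubes lies in one of the cylinders). -/
def CoveredAt {N : ℕ} (L δ ρ : ℝ) (A : ℕ) (c e : Fin N → E) : Prop :=
  ∀ x v : E, ‖v‖ = 1 → ∃ F : Finset (E × E), F.card ≤ A ∧ (∀ f ∈ F, ‖f.2‖ = 1) ∧
    ∀ i, ‖c i - x‖ ≤ 1 → ‖e i - v‖ ≤ ρ → ∃ f ∈ F, tube δ (c i) (e i) ⊆ cyl (L * ρ) f.1 f.2

/-- A family of tubes with `δ`-separated orientations, such that `A r` bounds its covering number at
the scale `δ ^ (r / M)`, for `1 ≤ r < M`. -/
def Family {N : ℕ} (L δ : ℝ) (M : ℕ) (A : ℕ → ℕ) (c e : Fin N → E) : Prop :=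
  (∀ i, ‖e i‖ = 1) ∧ (∀ i j, i ≠ j → δ ≤ ‖e i - e j‖) ∧
    ∀ r : ℕ, 1 ≤ r → r < M → 1 ≤ A r ∧ CoveredAt L δ (δ ^ ((r : ℝ) / M)) (A r) c e

/-- The number of the tubes of the family through the point `x`: the sum of their indicators. -/
noncomputable def mult {N : ℕ} (δ : ℝ) (c e : Fin N → E) (x : E) : ℝ :=
  ∑ i, (tube δ (c i) (e i)).indicator (fun _ => (1 : ℝ)) x

/-- A set `X` which contains a part `lam δ ^ (n - 1)` of every tube has volume at least
`lam ^ P B N δ ^ (n - 1)`, where `n = d + 1`. -/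
def Shadings [MeasureSpace E] {N : ℕ} (d : ℕ) (δ P B : ℝ) (c e : Fin N → E) : Prop :=
  ∀ (lam : ℝ) (X : Set E), 0 < lam → lam ≤ 1 → MeasurableSet X →
    (∀ i, ENNReal.ofReal (lam * δ ^ d) ≤ volume (X ∩ tube δ (c i) (e i))) →
    ENNReal.ofReal (lam ^ P * B * (N * δ ^ d)) ≤ volume X

/-- There is a set `G` which contains all but the part `δ ^ θ` of the total mass of the tubes, such
that at most `μ` tubes meet in a point of `G`, and the sum of the indicators satisfies on `G` the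
conjectured `L ^ q` bound with constant `μ`, for every `q ≥ n / (n - 1)`, where `n = d + 1`. -/
def Typical [MeasureSpace E] {N : ℕ} (d : ℕ) (δ θ μ : ℝ) (c e : Fin N → E) : Prop :=
  ∃ G : Set E, MeasurableSet G ∧
    ∑ i, volume (tube δ (c i) (e i) \ G) ≤
      ENNReal.ofReal (δ ^ θ) * ∑ i, volume (tube δ (c i) (e i)) ∧
    (∀ x ∈ G, mult δ c e x ≤ μ) ∧
    ∀ q : ℝ, 1 + 1 / (d : ℝ) ≤ q →
      eLpNorm (G.indicator (mult δ c e)) (ENNReal.ofReal q) volume ≤
        ENNReal.ofReal (μ * (δ ^ ((d : ℝ) / q) * (N : ℝ) ^ (1 - 1 / (q * d))))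

/-- The upper box dimension of the set `Λ` of pairs (point, direction) is at most `s`, with the
constant `C`: for every `0 < ρ < 1` it is covered by at most `C ρ ^ (-s)` products of two balls of
radius `ρ`. -/
def Box (Λ : Set (E × E)) (s C : ℝ) : Prop :=
  ∀ ρ : ℝ, 0 < ρ → ρ < 1 → ∃ F : Finset (E × E), (F.card : ℝ) ≤ C * ρ ^ (-s) ∧
    ∀ l ∈ Λ, ∃ f ∈ F, ‖l.1 - f.1‖ ≤ ρ ∧ ‖l.2 - f.2‖ ≤ ρ

/-- The packing dimension of the set `Λ` of pairs (point, direction) is at most `s`: for every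
`s' > s` it is a countable union of sets of upper box dimension at most `s'`. -/
def Pack (Λ : Set (E × E)) (s : ℝ) : Prop :=
  ∀ s' : ℝ, s < s' → ∃ Λj : ℕ → Set (E × E), Λ ⊆ ⋃ j, Λj j ∧ ∀ j, ∃ C, Box (Λj j) s' C

/-- The set `S` meets every line `x + ℝ e`, `(x, e) ∈ Λ`, `‖e‖ = 1`, in positive length, and the
directions of these lines are not a set of `(n - 1)`-dimensional measure zero, where `n = d + 1`. -/
def Meets [MeasurableSpace E] [BorelSpace E] (d : ℕ) (S : Set E) (Λ : Set (E × E)) : Prop :=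
  (∀ l ∈ Λ, ‖l.2‖ = 1 ∧ 0 < volume {t : ℝ | l.1 + t • l.2 ∈ S}) ∧
    0 < μH[(d : ℝ)] (Prod.snd '' Λ)

/-- First part of the theorem, for `E` of dimension `n = d + 1`. For all `ε > 0` and `L ≥ 1` there are
`M`, `θ`, `P`, `C` such that the following holds for all `0 < δ < 1`, all families of `N` tubes of
radius `δ` with `δ`-separated orientations, and all `A r` which bound the covering numbers at the
`M - 1` scales `δ ^ (r / M)`. A set `X` which contains a part `lam δ ^ (n - 1)` of every tube has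
volume at least `C⁻¹ lam ^ P δ ^ ε (∏ A r)⁻¹ (N δ ^ (n - 1))` (for example, the union of the tubes).
There is a set `G` which contains all but the part `δ ^ θ` of the total mass of the tubes, such that
at most `C δ ^ (-ε) ∏ A r` tubes meet in a point of `G`, and the sum of the indicators satisfies on
`G` the conjectured `L ^ q` bound with this loss, for every `q ≥ n / (n - 1)`. -/
def Part1 (E : Type) [NormedAddCommGroup E] [InnerProductSpace ℝ E] [MeasureSpace E] (d : ℕ) :
    Prop :=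
  ∀ ε L : ℝ, 0 < ε → 1 ≤ L → ∃ M : ℕ, 1 ≤ M ∧ ∃ θ P C : ℝ, 0 < θ ∧ 0 ≤ P ∧ 0 < C ∧
    ∀ δ : ℝ, 0 < δ → δ < 1 → ∀ (N : ℕ) (c e : Fin N → E) (A : ℕ → ℕ), Family L δ M A c e →
      Shadings d δ P (C⁻¹ * δ ^ ε * (∏ r ∈ Finset.Ico 1 M, (A r : ℝ))⁻¹) c e ∧
      Typical d δ θ (C * δ ^ (-ε) * ∏ r ∈ Finset.Ico 1 M, (A r : ℝ)) c e

/-- Second part of the theorem, for `E` of dimension `n = d + 1`: for every `ε > 0` there is `η > 0`
such that a set `S` has Hausdorff dimension at least `n - ε` if it meets in positive length every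
line `x + ℝ e`, `(x, e) ∈ Λ`, of a set `Λ` whose packing dimension is at most `n - 1 + η` and whose
directions are not a set of measure zero. In particular the dimension is `n` if the packing
dimension of `Λ` is `n - 1`. -/
def Part2 (E : Type) [NormedAddCommGroup E] [InnerProductSpace ℝ E] [MeasurableSpace E]
    [BorelSpace E] (d : ℕ) : Prop :=
  (∀ ε : ℝ, 0 < ε → ∃ η : ℝ, 0 < η ∧ ∀ (S : Set E) (Λ : Set (E × E)),
    Pack Λ (d + η) → Meets d S Λ → ENNReal.ofReal ((d : ℝ) + 1 - ε) ≤ dimH S) ∧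
  ∀ (S : Set E) (Λ : Set (E × E)), Pack Λ d → Meets d S Λ → dimH S = (d : ℝ≥0∞) + 1

end

/-- **Sticky Kakeya in every dimension** `n = d + 1 ≥ 2`: families of tubes with shadings, and sets. -/
theorem result (d : ℕ) (hd : 1 ≤ d) :
    Part1 (EuclideanSpace ℝ (Fin (d + 1))) d ∧ Part2 (EuclideanSpace ℝ (Fin (d + 1))) d := by
  refine ⟨fun ε L hε hL => ?_, fun ε hε => ?_, fun S Λ h1 h2 => ?_⟩
  · obtain ⟨M, hM, θ, P, C, hθ, hP, hC, H⟩ :=
      Pool.STE.join1 Pool.STE.all_ty1 Pool.STE.all_dn1 d hd ε L hε hL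
    refine ⟨M, hM, θ, P, C, hθ, hP, hC, ?_⟩
    intro δ hδ hδ1 N c e A hF
    obtain ⟨h1, h2⟩ := H δ hδ hδ1 N c e hF.1 hF.2.1 A hF.2.2
    refine ⟨?_, h2⟩
    intro lam X g1 g2 g3 g4
    refine le_trans (le_of_eq ?_) (h1 lam X g1 g2 g3 g4)
    ring_nf
  · obtain ⟨η, hη, H⟩ := Pool.STE.all_sf2 d ε hd hε
    exact ⟨η, hη, fun S Λ h1 h2 => H S Λ h1 h2.1 h2.2⟩
  · exact Pool.STE.all_sf d S Λ hd h1 h2.1 h2.2

end Pool.Agent.Results.MP_850839_an.StickyKakeya
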